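import Mathlib
import Pool.Agent.R493.OT.Core2
import Pool.Agent.Y47.BU.Ram
/-!
# Densities for several relations at once
-/

namespace Pool.Agent.R493.SI

open Finset Filter
open Pool.Agent.R493.OT (prs card_prs sum_pi_pair)

/-- every colouring of the pairs of `r` points with `R` colours has a monochromatic set of four points -/
def RamseyFour (R r : ℕ) : Prop :=
  ∀ c : Fin r → Fin r → Fin R, ∃ (t : Finset (Fin r)) (ρ : Fin R), t.card = 4 ∧
    ∀ i ∈ t, ∀ j ∈ t, i < j → c i j = ρ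

theorem exists_ramseyFour (R : ℕ) : ∃ r, 2 ≤ r ∧ RamseyFour R r := by
  classical
  rcases Nat.eq_zero_or_pos R with rfl | hR
  · exact ⟨2, le_rfl, fun c => (c 0 0).elim0⟩
  have : Nonempty (Fin R) := ⟨⟨0, hR⟩⟩
  obtain ⟨N, hN4, hN⟩ := Pool.Agent.Y47.BU.ramsey (Fin R) 4
  refine ⟨N, by omega, fun c => ?_⟩
  obtain ⟨B, ρ, _, hB, h⟩ := hN (Fin N) univ (by simp) c
  exact ⟨B, ρ, hB, h⟩

open Classical in
/-- Turan's theorem in complementary form -/
theorem turan_r {m r : ℕ} (hr : 2 ≤ r) (g : Fin m → Fin m → Prop)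
    (h4 : ∀ t : Finset (Fin m), t.card = r → ∃ i ∈ t, ∃ j ∈ t, i < j ∧ g i j) :
    ((m : ℝ) ^ 2 / ((r : ℝ) - 1) - m) / 2 ≤ (((prs m).filter (fun p => g p.1 p.2)).card : ℝ) := by
  obtain ⟨s, rfl⟩ : ∃ s, r = s + 1 := ⟨r - 1, by omega⟩
  have hs : 1 ≤ s := by omega
  set G : SimpleGraph (Fin m) :=
    { Adj := fun i j => i ≠ j ∧ ¬ g (min i j) (max i j)
      symm := ⟨fun i j h => ⟨h.1.symm, by rw [min_comm, max_comm]; exact h.2⟩⟩
      loopless := ⟨fun i h => h.1 rfl⟩ } with hG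
  have hfree : G.CliqueFree (s + 1) := by
    intro t ht
    rw [SimpleGraph.isNClique_iff] at ht
    obtain ⟨hcl, hcard⟩ := ht
    obtain ⟨i, hi, j, hj, hij, hr⟩ := h4 t hcard
    have h2 : G.Adj i j := hcl (by exact_mod_cast hi) (by exact_mod_cast hj) hij.ne
    apply h2.2
    rw [min_eq_left hij.le, max_eq_right hij.le]
    exact hr
  have h1 := hfree.card_edgeFinset_le
  simp only [Fintype.card_fin] at h1
  have h2 : G.edgeFinset.card = ((prs m).filter (fun p => ¬ g p.1 p.2)).card := by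
    symm
    apply Finset.card_bij (fun p _ => s(p.1, p.2))
    · intro p hp
      obtain ⟨hp1, hp2⟩ := mem_filter.1 hp
      unfold prs at hp1
      have hlt : p.1 < p.2 := (mem_filter.1 hp1).2
      rw [SimpleGraph.mem_edgeFinset, SimpleGraph.mem_edgeSet]
      refine ⟨hlt.ne, ?_⟩
      rw [min_eq_left hlt.le, max_eq_right hlt.le]
      exact hp2
    · intro p hp p' hp' he
      obtain ⟨hp1, hp2⟩ := mem_filter.1 hp
      obtain ⟨hp1', hp2'⟩ := mem_filter.1 hp'
      unfold prs at hp1 hp1'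
      have hlt : p.1 < p.2 := (mem_filter.1 hp1).2
      have hlt' : p'.1 < p'.2 := (mem_filter.1 hp1').2
      rw [Sym2.eq_iff] at he
      rcases he with ⟨e1, e2⟩ | ⟨e1, e2⟩
      · exact Prod.ext e1 e2
      · exfalso
        rw [e1, e2] at hlt
        exact absurd hlt (not_lt.2 hlt'.le)
    · intro e he
      induction e using Sym2.ind with
      | _ x y =>
        rw [SimpleGraph.mem_edgeFinset, SimpleGraph.mem_edgeSet] at he
        obtain ⟨hne, hr⟩ := he
        rcases lt_or_gt_of_ne hne with h | h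
        · refine ⟨(x, y), ?_, rfl⟩
          rw [min_eq_left h.le, max_eq_right h.le] at hr
          exact mem_filter.2 ⟨mem_filter.2 ⟨mem_univ _, h⟩, hr⟩
        · refine ⟨(y, x), ?_, Sym2.eq_swap⟩
          rw [min_eq_right h.le, max_eq_left h.le] at hr
          exact mem_filter.2 ⟨mem_filter.2 ⟨mem_univ _, h⟩, hr⟩
  have h4' := Finset.card_filter_add_card_filter_not (s := prs m) (fun p => g p.1 p.2)
  have h5 : ((((prs m).filter (fun p => g p.1 p.2)).card : ℕ) : ℝ) +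
      ((((prs m).filter (fun p => ¬ g p.1 p.2)).card : ℕ) : ℝ) = m * (m - 1) / 2 := by
    rw [← card_prs m]
    exact_mod_cast h4'
  have hs0 : (0 : ℝ) < s := by exact_mod_cast hs
  -- the bound of Turan in real numbers
  have h6 : ((((prs m).filter (fun p => ¬ g p.1 p.2)).card : ℕ) : ℝ) ≤
      (1 - 1 / (s : ℝ)) * m ^ 2 / 2 := by
    rw [← h2]
    have h7 : (G.edgeFinset.card : ℝ) ≤
        (((m ^ 2 - (m % s) ^ 2) * (s - 1) / (2 * s) + (m % s).choose 2 : ℕ) : ℝ) := by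
      exact_mod_cast h1
    refine h7.trans ?_
    have hq : m % s < s := Nat.mod_lt _ (by omega)
    have hqm : m % s ≤ m := Nat.mod_le _ _
    set q := m % s with hqd
    have h8 : ((((m ^ 2 - q ^ 2) * (s - 1) / (2 * s) : ℕ)) : ℝ) ≤
        ((m : ℝ) ^ 2 - (q : ℝ) ^ 2) * ((s : ℝ) - 1) / (2 * s) := by
      refine Nat.cast_div_le.trans ?_
      have h9 : q ^ 2 ≤ m ^ 2 := Nat.pow_le_pow_left hqm 2
      rw [Nat.cast_mul, Nat.cast_sub h9, Nat.cast_sub hs]
      push_cast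
      exact le_rfl
    have h9 : ((q.choose 2 : ℕ) : ℝ) = q * (q - 1) / 2 := Nat.cast_choose_two ℝ q
    push_cast
    rw [h9]
    have hqs : (q : ℝ) ≤ s := by exact_mod_cast hq.le
    have hq0 : (0 : ℝ) ≤ q := Nat.cast_nonneg _
    have h10 : ((m : ℝ) ^ 2 - (q : ℝ) ^ 2) * ((s : ℝ) - 1) / (2 * s) + q * (q - 1) / 2 =
        (1 - 1 / (s : ℝ)) * m ^ 2 / 2 - q * (s - q) / (2 * s) := by
      field_simp
      ring
    have h11 : 0 ≤ (q : ℝ) * (s - q) / (2 * s) :=
      div_nonneg (mul_nonneg hq0 (by linarith)) (by positivity)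
    have h12 : ((((m ^ 2 - q ^ 2) * (s - 1) / (2 * s) : ℕ)) : ℝ) + (q : ℝ) * (q - 1) / 2 ≤
        ((m : ℝ) ^ 2 - (q : ℝ) ^ 2) * ((s : ℝ) - 1) / (2 * s) + q * (q - 1) / 2 := by linarith
    refine h12.trans ?_
    rw [h10]
    linarith
  push_cast
  have h13 : ((m : ℝ) ^ 2 / ((s : ℝ) + 1 - 1) - m) / 2 = m * (m - 1) / 2 - (1 - 1 / (s : ℝ)) * m ^ 2 / 2 := by
    have : (s : ℝ) + 1 - 1 = s := by ring
    rw [this]
    field_simp
    ring
  rw [h13]
  linarith

/-- all the relations hold -/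
def AllR {R m : ℕ} {α : Type} (Rel : Fin R → Fin m → Fin m → α → α → Prop) (i j : Fin m) (a b : α) :
    Prop := ∀ ρ, Rel ρ i j a b

open Classical in
/-- almost all transversals have many pairs related by all the relations -/
theorem rareR (R r m K : ℕ) (hr : 2 ≤ r) (hRam : RamseyFour R r) {δ : ℝ} (hδ : 0 < δ) :
    ∃ N : ℕ, ∀ (α : Type)
    (Rel : Fin R → Fin m → Fin m → α → α → Prop) (V : Fin m → Finset α), (∀ i, N ≤ (V i).card) →
    (∀ ρ, ∀ t : Finset (Fin m), t.card = 4 → ∀ A : Fin m → Fin K → α,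
      (∀ i, Function.Injective (A i)) → (∀ i k, A i k ∈ V i) →
      ∃ i ∈ t, ∃ j ∈ t, i < j ∧ ∃ k k', Rel ρ i j (A i k) (A j k')) →
    ((((Fintype.piFinset V).filter (fun x =>
      (((prs m).filter (fun p => AllR Rel p.1 p.2 (x p.1) (x p.2))).card : ℝ) <
        ((m : ℝ) ^ 2 / ((r : ℝ) - 1) - m) / 2)).card : ℕ) : ℝ) ≤
      δ * ∏ i, ((V i).card : ℝ) := by
  obtain ⟨N, hN⟩ := Pool.Agent.H362R2.CM.box_lemma m (K + 1) (δ / (R * 2 ^ m + 1))
    (by positivity)
  refine ⟨N, fun α Rel V hV h4 => ?_⟩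
  by_contra hcon
  push Not at hcon
  set Bad := (Fintype.piFinset V).filter (fun x =>
      (((prs m).filter (fun p => AllR Rel p.1 p.2 (x p.1) (x p.2))).card : ℝ) <
        ((m : ℝ) ^ 2 / ((r : ℝ) - 1) - m) / 2) with hBad
  set D : Finset (Fin R × Finset (Fin m)) :=
    (univ : Finset (Fin R × Finset (Fin m))).filter (fun t => t.2.card = 4) with hD
  have h1 : Bad ⊆ D.biUnion
      (fun t => (Fintype.piFinset V).filter (fun x =>
        ∀ i ∈ t.2, ∀ j ∈ t.2, i < j → ¬ Rel t.1 i j (x i) (x j))) := by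
    intro x hx
    obtain ⟨hx1, hx2⟩ := mem_filter.1 hx
    by_contra hno
    apply absurd (turan_r hr (fun i j => AllR Rel i j (x i) (x j)) (fun I hI => ?_)) (not_le.2 hx2)
    by_contra hno2
    unfold AllR at hno2
    push Not at hno2
    -- a colouring of the independent set
    set e := I.orderEmbOfFin hI with he
    have heI : ∀ i, e i ∈ I := fun i => I.orderEmbOfFin_mem hI i
    have hex : ∀ i j : Fin r, ∃ ρ : Fin R, i < j → ¬ Rel ρ (e i) (e j) (x (e i)) (x (e j)) := by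
      intro i j
      by_cases hij : i < j
      · obtain ⟨ρ, hρ⟩ := hno2 (e i) (heI i) (e j) (heI j) (e.strictMono hij)
        exact ⟨ρ, fun _ => hρ⟩
      · have h01 : (⟨0, by omega⟩ : Fin r) < ⟨1, by omega⟩ := by
          rw [Fin.mk_lt_mk]; norm_num
        obtain ⟨ρ, _⟩ := hno2 (e ⟨0, by omega⟩) (heI _) (e ⟨1, by omega⟩) (heI _) (e.strictMono h01)
        exact ⟨ρ, fun h => absurd h hij⟩
    choose c hc using hex
    obtain ⟨t, ρ, ht, htc⟩ := hRam c
    apply hno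
    refine mem_biUnion.2 ⟨(ρ, t.map e.toEmbedding), mem_filter.2 ⟨mem_univ _, ?_⟩,
      mem_filter.2 ⟨hx1, ?_⟩⟩
    · simp only
      rw [card_map, ht]
    · intro i hi j hj hij
      simp only at hi hj ⊢
      obtain ⟨i', hi', rfl⟩ := Finset.mem_map.1 hi
      obtain ⟨j', hj', rfl⟩ := Finset.mem_map.1 hj
      have hlt : i' < j' := e.lt_iff_lt.1 hij
      have := hc i' j' hlt
      rw [htc i' hi' j' hj' hlt] at this
      exact this
  have h2 : ∃ t ∈ D, δ / (R * 2 ^ m + 1) * ∏ i, ((V i).card : ℝ) ≤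
      ((Fintype.piFinset V).filter (fun x =>
        ∀ i ∈ t.2, ∀ j ∈ t.2, i < j → ¬ Rel t.1 i j (x i) (x j))).card := by
    by_contra hno
    push Not at hno
    have h3 : ((Bad.card : ℕ) : ℝ) ≤ ∑ t ∈ D,
        (((Fintype.piFinset V).filter (fun x =>
        ∀ i ∈ t.2, ∀ j ∈ t.2, i < j → ¬ Rel t.1 i j (x i) (x j))).card : ℝ) := by
      exact_mod_cast (card_le_card h1).trans card_biUnion_le
    have h4 : ∑ t ∈ D,
        (((Fintype.piFinset V).filter (fun x =>
        ∀ i ∈ t.2, ∀ j ∈ t.2, i < j → ¬ Rel t.1 i j (x i) (x j))).card : ℝ) ≤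
        ∑ t ∈ D, δ / (R * 2 ^ m + 1) * ∏ i, ((V i).card : ℝ) :=
      Finset.sum_le_sum (fun t ht => (hno t ht).le)
    rw [Finset.sum_const, nsmul_eq_mul] at h4
    have h5 : (D.card : ℝ) ≤ R * 2 ^ m := by
      have : D.card ≤ R * 2 ^ m := by
        refine (card_le_univ _).trans ?_
        rw [Fintype.card_prod, Fintype.card_fin, Fintype.card_finset, Fintype.card_fin]
      exact_mod_cast this
    have h6 : (0 : ℝ) ≤ ∏ i, ((V i).card : ℝ) := Finset.prod_nonneg (fun i _ => Nat.cast_nonneg _)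
    have h7 : (D.card : ℝ) *
        (δ / (R * 2 ^ m + 1) * ∏ i, ((V i).card : ℝ)) ≤ δ * ∏ i, ((V i).card : ℝ) := by
      have h8 : (D.card : ℝ) * (δ / (R * 2 ^ m + 1)) ≤ δ := by
        rw [mul_div_assoc', div_le_iff₀ (by positivity)]
        nlinarith
      calc _ = ((D.card : ℝ) * (δ / (R * 2 ^ m + 1))) * ∏ i, ((V i).card : ℝ) := by ring
        _ ≤ _ := mul_le_mul_of_nonneg_right h8 h6
    linarith
  obtain ⟨t, ht, hcard⟩ := h2
  obtain ⟨A, hA1, hA2⟩ := hN α V hV _ (filter_subset _ _) hcard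
  have hmem : ∀ i k, A i k ∈ V i := by
    intro i k
    have := (mem_filter.1 (hA2 (fun _ => k))).1
    rw [Fintype.mem_piFinset] at this
    exact this i
  obtain ⟨i, hi, j, hj, hij, k, k', hR⟩ := h4 t.1 t.2 (mem_filter.1 ht).2 (fun i k => A i (Fin.castSucc k))
    (fun i a b hab => Fin.castSucc_injective _ (hA1 i hab)) (fun i k => hmem i _)
  have h9 := (mem_filter.1 (hA2 (fun l => if l = i then Fin.castSucc k else Fin.castSucc k'))).2 i hi j hj hij
  simp only [if_pos, if_neg hij.ne'] at h9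
  exact h9 hR

open Classical in
/-- the densities of the common relation between the pairs of classes -/
theorem densR (R r m K : ℕ) (hr : 2 ≤ r) (hRam : RamseyFour R r) : ∃ N : ℕ, 1 ≤ N ∧ ∀ (α : Type)
    (Rel : Fin R → Fin m → Fin m → α → α → Prop) (V : Fin m → Finset α), (∀ i, N ≤ (V i).card) →
    (∀ ρ, ∀ t : Finset (Fin m), t.card = 4 → ∀ A : Fin m → Fin K → α,
      (∀ i, Function.Injective (A i)) → (∀ i k, A i k ∈ V i) →
      ∃ i ∈ t, ∃ j ∈ t, i < j ∧ ∃ k k', Rel ρ i j (A i k) (A j k')) →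
    ((m : ℝ) ^ 2 / ((r : ℝ) - 1) - m) / 2 - 1 ≤ ∑ p ∈ prs m,
      ((∑ a ∈ V p.1, ∑ b ∈ V p.2, (if AllR Rel p.1 p.2 a b then (1 : ℝ) else 0)) /
        (((V p.1).card : ℝ) * ((V p.2).card : ℝ))) := by
  set c : ℝ := ((m : ℝ) ^ 2 / ((r : ℝ) - 1) - m) / 2 with hc
  obtain ⟨N, hN⟩ := rareR R r m K hr hRam (δ := 1 / (|c| + 1)) (by positivity)
  refine ⟨max 1 N, le_max_left _ _, fun α Rel V hV h4 => ?_⟩
  have hrr := hN α Rel V (fun i => (le_max_right _ _).trans (hV i)) h4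
  have hV0 : ∀ i, (0 : ℝ) < (V i).card := fun i => by
    exact_mod_cast (lt_of_lt_of_le one_pos ((le_max_left _ _).trans (hV i)))
  have hP : (0 : ℝ) < ∏ i, ((V i).card : ℝ) := Finset.prod_pos (fun i _ => hV0 i)
  set P := ∏ i, ((V i).card : ℝ) with hPdef
  have h1 : P * ∑ p ∈ prs m,
      ((∑ a ∈ V p.1, ∑ b ∈ V p.2, (if AllR Rel p.1 p.2 a b then (1 : ℝ) else 0)) /
        (((V p.1).card : ℝ) * ((V p.2).card : ℝ))) =
      ∑ x ∈ Fintype.piFinset V,
        (((prs m).filter (fun p => AllR Rel p.1 p.2 (x p.1) (x p.2))).card : ℝ) := by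
    have e1 : ∀ x ∈ Fintype.piFinset V,
        (((prs m).filter (fun p => AllR Rel p.1 p.2 (x p.1) (x p.2))).card : ℝ) =
        ∑ p ∈ prs m, (if AllR Rel p.1 p.2 (x p.1) (x p.2) then (1 : ℝ) else 0) := by
      intro x _
      rw [Finset.card_filter]
      push_cast
      rfl
    rw [Finset.sum_congr rfl e1, Finset.sum_comm, Finset.mul_sum]
    apply Finset.sum_congr rfl
    intro p hp
    have hlt : p.1 < p.2 := (mem_filter.1 hp).2
    have e2 := sum_pi_pair V hlt.ne (fun a b => if AllR Rel p.1 p.2 a b then (1 : ℝ) else 0)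
    have h0 : ((V p.1).card : ℝ) * ((V p.2).card : ℝ) ≠ 0 := (mul_pos (hV0 _) (hV0 _)).ne'
    rw [mul_div_assoc', div_eq_iff h0]
    rw [mul_comm (∑ x ∈ Fintype.piFinset V, _)]
    exact e2.symm
  have h2 : (c - 1) * P ≤
      ∑ x ∈ Fintype.piFinset V,
        (((prs m).filter (fun p => AllR Rel p.1 p.2 (x p.1) (x p.2))).card : ℝ) := by
    rcases le_or_gt c 0 with hc0 | hc0
    · have h3 : (0 : ℝ) ≤ ∑ x ∈ Fintype.piFinset V,
        (((prs m).filter (fun p => AllR Rel p.1 p.2 (x p.1) (x p.2))).card : ℝ) :=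
        Finset.sum_nonneg (fun _ _ => Nat.cast_nonneg _)
      nlinarith
    have h3 : ∑ x ∈ (Fintype.piFinset V).filter (fun x =>
        ¬ (((prs m).filter (fun p => AllR Rel p.1 p.2 (x p.1) (x p.2))).card : ℝ) < c), c ≤
        ∑ x ∈ Fintype.piFinset V,
          (((prs m).filter (fun p => AllR Rel p.1 p.2 (x p.1) (x p.2))).card : ℝ) := by
      refine (Finset.sum_le_sum (fun x hx => ?_)).trans
        (Finset.sum_le_sum_of_subset_of_nonneg (filter_subset _ _) (fun _ _ _ => Nat.cast_nonneg _))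
      exact not_lt.1 (mem_filter.1 hx).2
    rw [Finset.sum_const, nsmul_eq_mul] at h3
    have h4' := Finset.card_filter_add_card_filter_not (s := Fintype.piFinset V) (fun x =>
        (((prs m).filter (fun p => AllR Rel p.1 p.2 (x p.1) (x p.2))).card : ℝ) < c)
    rw [Fintype.card_piFinset] at h4'
    have h5 : ((((Fintype.piFinset V).filter (fun x =>
        (((prs m).filter (fun p => AllR Rel p.1 p.2 (x p.1) (x p.2))).card : ℝ) < c)).card : ℕ) : ℝ) +
        ((((Fintype.piFinset V).filter (fun x =>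
        ¬ (((prs m).filter (fun p => AllR Rel p.1 p.2 (x p.1) (x p.2))).card : ℝ) < c)).card : ℕ) : ℝ) = P := by
      rw [hPdef]
      exact_mod_cast h4'
    have h6 : (1 / (|c| + 1)) * c ≤ 1 := by
      rw [div_mul_eq_mul_div, div_le_iff₀ (by positivity)]
      have := le_abs_self c
      linarith
    have h7 : (P - 1 / (|c| + 1) * P) * c ≤
        ((((Fintype.piFinset V).filter (fun x =>
        ¬ (((prs m).filter (fun p => AllR Rel p.1 p.2 (x p.1) (x p.2))).card : ℝ) < c)).card : ℕ) : ℝ) * c := by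
      apply mul_le_mul_of_nonneg_right _ hc0.le
      linarith
    have h8 : (c - 1) * P ≤ (P - 1 / (|c| + 1) * P) * c := by
      have : (1 / (|c| + 1)) * c * P ≤ 1 * P := mul_le_mul_of_nonneg_right h6 hP.le
      nlinarith
    linarith
  have h9 : (c - 1) * P ≤ P * ∑ p ∈ prs m,
      ((∑ a ∈ V p.1, ∑ b ∈ V p.2, (if AllR Rel p.1 p.2 a b then (1 : ℝ) else 0)) /
        (((V p.1).card : ℝ) * ((V p.2).card : ℝ))) := by rw [h1]; exact h2
  rw [mul_comm P] at h9
  exact le_of_mul_le_mul_right h9 hP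

end Pool.Agent.R493.SI
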