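import Mathlib
import Pool.Agent.R493.SI.Comb
/-!
# The share of the common good numbers in every long window
-/

namespace Pool.Agent.R493.SI

open Finset Filter
open Pool.Agent.R493.OT (prs card_prs)

open Classical in
theorem winCore (R r K : ℕ) (hr : 2 ≤ r) (hRam : RamseyFour R r) (C : Fin R → ℕ → Prop)
    (h4 : ∀ ρ, ∀ (m : ℕ) (t : Finset (Fin m)), t.card = 4 → ∀ A : Fin m → Fin K → ℕ,
      (∀ i, Function.Injective (A i)) →
      (∀ i ∈ t, ∀ j ∈ t, i < j → ∀ k k', A i k < A j k') →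
      ∃ i ∈ t, ∃ j ∈ t, i < j ∧ ∃ k k', C ρ (A j k' - A i k))
    (ε : ℝ) (hε : 0 < ε) : ∃ L : ℕ, ∀ T : ℕ, L ≤ T → ∀ u : ℕ,
      (1 / ((r : ℝ) - 1) - ε) * T ≤
        (((Ioc u (u + T)).filter (fun k => ∀ ρ, C ρ k)).card : ℝ) := by
  by_contra hcon
  push Not at hcon
  choose T hT u hbad using hcon
  have hr1 : (0 : ℝ) < (r : ℝ) - 1 := by
    have : (2 : ℝ) ≤ r := by exact_mod_cast hr
    linarith
  obtain ⟨m, hm⟩ := exists_nat_gt (4 / ε + 4)
  have hm4 : (4 : ℝ) < m := by
    have : 0 < 4 / ε := by positivity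
    linarith
  obtain ⟨N, hN1, hN⟩ := densR R r m K hr hRam
  set η : ℝ := ε / 4 with hη
  have hη0 : 0 < η := by positivity
  obtain ⟨f, hf1, hf2⟩ := exists_seq_of_forall_finset_exists
    (fun n : ℕ => N + 1 ≤ n)
    (fun n n' : ℕ => ((u n : ℝ) + T n) ≤ η * T n') (by
      intro S _
      have e1 : ∀ᶠ n' : ℕ in atTop, ∀ n ∈ S, ((u n : ℝ) + T n) ≤ η * T n' := by
        rw [Filter.eventually_all_finset]
        intro n _
        have t1 : Tendsto (fun n' : ℕ => η * (n' : ℝ)) atTop atTop :=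
          Tendsto.const_mul_atTop hη0 tendsto_natCast_atTop_atTop
        filter_upwards [t1.eventually_ge_atTop ((u n : ℝ) + T n)] with n' h1
        refine h1.trans (mul_le_mul_of_nonneg_left ?_ hη0.le)
        exact_mod_cast hT n'
      obtain ⟨n, h1, h2⟩ := ((eventually_ge_atTop (N + 1)).and e1).exists
      exact ⟨n, h1, h2⟩)
  have hTN : ∀ n, N + 1 ≤ T (f n) := fun n => (hf1 n).trans (hT _)
  have hTr : ∀ n, (0 : ℝ) < T (f n) := fun n => by
    have := hTN n
    exact_mod_cast (by omega : 0 < T (f n))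
  set W : ℕ → Finset ℕ := fun n => Ioc (u (f n)) (u (f n) + T (f n)) with hW
  have hWc : ∀ n, (W n).card = T (f n) := fun n => by simp [hW]
  have hmain := hN ℕ (fun ρ _ _ a b => b ≤ a ∨ C ρ (b - a)) (fun i : Fin m => W i)
    (fun i => by
      show N ≤ (W i).card
      rw [hWc]
      have := hTN i
      omega) (by
      intro ρ t ht A hA hmem
      by_cases hle : ∃ i ∈ t, ∃ j ∈ t, i < j ∧ ∃ k k', A j k' ≤ A i k
      · obtain ⟨i, hi, j, hj, hij, k, k', h⟩ := hle
        exact ⟨i, hi, j, hj, hij, k, k', Or.inl h⟩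
      · push Not at hle
        obtain ⟨i, hi, j, hj, hij, k, k', h⟩ := h4 ρ m t ht A hA hle
        exact ⟨i, hi, j, hj, hij, k, k', Or.inr h⟩)
  -- one pair
  have hpair : ∀ p ∈ prs m,
      ((∑ a ∈ W p.1, ∑ b ∈ W p.2,
        (if AllR (fun (ρ : Fin R) (_ _ : Fin m) (a b : ℕ) => b ≤ a ∨ C ρ (b - a)) p.1 p.2 a b
          then (1 : ℝ) else 0)) /
        (((W p.1).card : ℝ) * ((W p.2).card : ℝ))) ≤ 1 / ((r : ℝ) - 1) - ε / 2 := by
    intro p hp
    have hlt : (p.1 : ℕ) < p.2 := (mem_filter.1 hp).2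
    have hrel := hf2 _ _ hlt
    have h0 : (0 : ℝ) < ((W p.1).card : ℝ) * ((W p.2).card : ℝ) := by
      rw [hWc, hWc]
      exact mul_pos (hTr _) (hTr _)
    rw [div_le_iff₀ h0]
    have hrow : ∀ a ∈ W p.1, ∑ b ∈ W p.2,
        (if AllR (fun (ρ : Fin R) (_ _ : Fin m) (a b : ℕ) => b ≤ a ∨ C ρ (b - a)) p.1 p.2 a b
          then (1 : ℝ) else 0) ≤ (1 / ((r : ℝ) - 1) - ε / 2) * T (f p.2) := by
      intro a ha
      rw [hW] at ha
      rw [mem_Ioc] at ha
      have e1 : ∑ b ∈ W p.2,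
        (if AllR (fun (ρ : Fin R) (_ _ : Fin m) (a b : ℕ) => b ≤ a ∨ C ρ (b - a)) p.1 p.2 a b
          then (1 : ℝ) else 0) = (((W p.2).filter (fun b =>
          AllR (fun (ρ : Fin R) (_ _ : Fin m) (a b : ℕ) => b ≤ a ∨ C ρ (b - a)) p.1 p.2 a b)).card : ℝ) := by
        rw [Finset.card_filter]
        push_cast
        rfl
      rw [e1]
      set Gd := (W p.2).filter (fun k => ∀ ρ, C ρ k) with hGd
      have h5 : (W p.2).filter (fun b =>
          AllR (fun (ρ : Fin R) (_ _ : Fin m) (a b : ℕ) => b ≤ a ∨ C ρ (b - a)) p.1 p.2 a b) ⊆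
          Ioc 0 a ∪ (Gd.image (fun k => k + a) ∪ (Ioc (u (f p.2)) (u (f p.2) + a))) := by
        intro b hb
        obtain ⟨h6, h7⟩ := mem_filter.1 hb
        rw [hW] at h6
        rw [mem_Ioc] at h6
        rw [mem_union, mem_union, mem_Ioc, mem_Ioc]
        by_cases h8 : b ≤ a
        · left
          exact ⟨by omega, h8⟩
        · right
          by_cases h9 : b ≤ u (f p.2) + a
          · right
            exact ⟨h6.1, h9⟩
          · left
            refine mem_image.2 ⟨b - a, mem_filter.2 ⟨?_, fun ρ => ?_⟩, by omega⟩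
            · rw [hW, mem_Ioc]
              omega
            · rcases h7 ρ with h10 | h10
              · exact absurd h10 h8
              · exact h10
      have h6 := (card_le_card h5).trans ((card_union_le _ _).trans
        (Nat.add_le_add_left (card_union_le _ _) _))
      have h7 : (Gd.image (fun k => k + a)).card ≤ Gd.card := card_image_le
      rw [Nat.card_Ioc, Nat.card_Ioc] at h6
      have h8 : (((W p.2).filter (fun b =>
          AllR (fun (ρ : Fin R) (_ _ : Fin m) (a b : ℕ) => b ≤ a ∨ C ρ (b - a)) p.1 p.2 a b)).card : ℝ) ≤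
          Gd.card + 2 * a := by
        have : ((W p.2).filter (fun b =>
          AllR (fun (ρ : Fin R) (_ _ : Fin m) (a b : ℕ) => b ≤ a ∨ C ρ (b - a)) p.1 p.2 a b)).card ≤
          Gd.card + 2 * a := by omega
        exact_mod_cast this
      have h9 : (Gd.card : ℝ) < (1 / ((r : ℝ) - 1) - ε) * T (f p.2) := hbad (f p.2)
      have h10 : (a : ℝ) ≤ η * T (f p.2) := by
        refine le_trans ?_ hrel
        exact_mod_cast ha.2
      have h11 : ε = 4 * η := by rw [hη]; ring
      rw [h11] at h9 ⊢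
      nlinarith
    refine (Finset.sum_le_sum hrow).trans ?_
    rw [Finset.sum_const, nsmul_eq_mul, hWc p.2]
    apply le_of_eq
    ring
  have hsum := Finset.sum_le_sum hpair
  rw [Finset.sum_const, nsmul_eq_mul, card_prs] at hsum
  have h11 := hmain.trans hsum
  have h13 : 4 / ε * ε = 4 := by field_simp
  have h14 : (4 / ε + 4) * ε < m * ε := mul_lt_mul_of_pos_right hm hε
  have h15 : 0 < 1 / ((r : ℝ) - 1) := by positivity
  have h16 : (m : ℝ) ^ 2 / ((r : ℝ) - 1) = m ^ 2 * (1 / ((r : ℝ) - 1)) := by ring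
  rw [h16] at h11
  set x : ℝ := 1 / ((r : ℝ) - 1)
  nlinarith

end Pool.Agent.R493.SI
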