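import Mathlib
import Pool.Agent.R493.SI.Comb
/-!
# Common pairs for several relations with large cliques, and their densities
-/

namespace Pool.Agent.R493.SI

open Finset Filter
open Pool.Agent.R493.OT (prs card_prs sum_pi_pair)

/-- `1, 3, 10, 36, ...` -/
def mR : ℕ → ℕ
  | 0 => 1
  | R + 1 => 18 * mR R / 5

theorem mR_pos (R : ℕ) : 1 ≤ mR R := by
  induction R with
  | zero => exact le_rfl
  | succ R ih =>
    show 1 ≤ 18 * mR R / 5
    omega

/-- nested cliques -/
theorem nested {R m : ℕ} (P : Fin R → Fin m → Fin m → Prop)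
    (h : ∀ ρ, ∀ t : Finset (Fin m), t.card ≤ mR R + 1 → ∃ S ⊆ t, 5 * t.card ≤ 18 * S.card ∧
      ∀ i ∈ S, ∀ j ∈ S, i < j → P ρ i j) (t : Finset (Fin m)) (ht : t.card = mR R + 1) :
    ∃ i ∈ t, ∃ j ∈ t, i < j ∧ ∀ ρ, P ρ i j := by
  have key : ∀ n ≤ R, ∀ t : Finset (Fin m), t.card ≤ mR R + 1 → mR n < t.card → ∃ S ⊆ t, 2 ≤ S.card ∧
      ∀ ρ : Fin R, (ρ : ℕ) < n → ∀ i ∈ S, ∀ j ∈ S, i < j → P ρ i j := by
    intro n
    induction n with
    | zero =>
      intro _ t _ ht
      exact ⟨t, Subset.rfl, ht, fun ρ hρ => absurd hρ (by omega)⟩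
    | succ n ih =>
      intro hn t htr ht
      obtain ⟨S, hS, hSc, hSP⟩ := h ⟨n, by omega⟩ t htr
      have h1 : mR n < S.card := by
        have h2 : mR (n + 1) = 18 * mR n / 5 := rfl
        omega
      obtain ⟨S', hS', hc, hP⟩ := ih (by omega) S ((card_le_card hS).trans htr) h1
      refine ⟨S', hS'.trans hS, hc, fun ρ hρ i hi j hj hij => ?_⟩
      by_cases h3 : (ρ : ℕ) < n
      · exact hP ρ h3 i hi j hj hij
      · have h4 : ρ = ⟨n, by omega⟩ := Fin.ext (by simp only; omega)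
        rw [h4]
        exact hSP i (hS' hi) j (hS' hj) hij
  obtain ⟨S, hS, hc, hP⟩ := key R le_rfl t ht.le (by omega)
  obtain ⟨i, hi, j, hj, hne⟩ := Finset.one_lt_card.1 (by omega : 1 < S.card)
  rcases lt_or_gt_of_ne hne with h1 | h1
  · exact ⟨i, hS hi, j, hS hj, h1, fun ρ => hP ρ ρ.2 i hi j hj h1⟩
  · exact ⟨j, hS hj, i, hS hi, h1, fun ρ => hP ρ ρ.2 j hj i hi h1⟩

/-- the relations have large cliques in all systems of `m` classes of `K` elements of `V` -/
def Cliques {R m : ℕ} (K : ℕ) {α : Type} (Rel : Fin R → Fin m → Fin m → α → α → Prop)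
    (V : Fin m → Finset α) : Prop :=
  ∀ ρ, ∀ t : Finset (Fin m), t.card ≤ mR R + 1 → ∀ A : Fin m → Fin K → α,
      (∀ i, Function.Injective (A i)) → (∀ i k, A i k ∈ V i) →
      ∃ S ⊆ t, 5 * t.card ≤ 18 * S.card ∧ ∃ c : Fin m → Fin K,
        ∀ i ∈ S, ∀ j ∈ S, i < j → Rel ρ i j (A i (c i)) (A j (c j))

open Classical in
/-- almost all transversals have many pairs related by all the relations -/
theorem rareN (R m K : ℕ) {δ : ℝ} (hδ : 0 < δ) :
    ∃ N : ℕ, ∀ (α : Type)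
    (Rel : Fin R → Fin m → Fin m → α → α → Prop) (V : Fin m → Finset α), (∀ i, N ≤ (V i).card) →
    Cliques K Rel V →
    ((((Fintype.piFinset V).filter (fun x =>
      (((prs m).filter (fun p => AllR Rel p.1 p.2 (x p.1) (x p.2))).card : ℝ) <
        ((m : ℝ) ^ 2 / (mR R : ℝ) - m) / 2)).card : ℕ) : ℝ) ≤
      δ * ∏ i, ((V i).card : ℝ) := by
  set Pat := Fin R → Finset (Fin m × Fin m) with hPat
  set M : ℕ := Fintype.card Pat with hM
  obtain ⟨N, hN⟩ := Pool.Agent.H362R2.CM.box_lemma m (K + 1) (δ / (M + 1)) (by positivity)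
  refine ⟨N, fun α Rel V hV h4 => ?_⟩
  by_contra hcon
  push Not at hcon
  set Bad := (Fintype.piFinset V).filter (fun x =>
      (((prs m).filter (fun p => AllR Rel p.1 p.2 (x p.1) (x p.2))).card : ℝ) <
        ((m : ℝ) ^ 2 / (mR R : ℝ) - m) / 2) with hBad
  set f : (Fin m → α) → Pat := fun x ρ => (prs m).filter (fun p => Rel ρ p.1 p.2 (x p.1) (x p.2))
    with hf
  have hP0 : (0 : ℝ) ≤ ∏ i, ((V i).card : ℝ) := Finset.prod_nonneg (fun i _ => Nat.cast_nonneg _)
  obtain ⟨σ, _, hσ⟩ := Finset.exists_le_card_fiber_of_nsmul_le_card_of_maps_to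
    (s := Bad) (t := (univ : Finset Pat)) (f := f) (fun _ _ => mem_univ _)
    (⟨fun _ => ∅, mem_univ _⟩) (b := δ / (M + 1) * ∏ i, ((V i).card : ℝ)) (by
      rw [nsmul_eq_mul, card_univ, ← hM]
      refine le_trans ?_ hcon.le
      rw [← mul_assoc]
      apply mul_le_mul_of_nonneg_right _ hP0
      rw [mul_div_assoc', div_le_iff₀ (by positivity)]
      nlinarith)
  set B := Bad.filter (fun x => f x = σ) with hB
  obtain ⟨A, hA1, hA2⟩ := hN α V hV B ((filter_subset _ _).trans (filter_subset _ _)) hσ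
  have hmem : ∀ i k, A i k ∈ V i := by
    intro i k
    have h1 := (mem_filter.1 (mem_filter.1 (hA2 (fun _ => k))).1).1
    rw [Fintype.mem_piFinset] at h1
    exact h1 i
  have hpat : ∀ (c : Fin m → Fin (K + 1)) (ρ : Fin R) (i j : Fin m), i < j →
      (Rel ρ i j (A i (c i)) (A j (c j)) ↔ (i, j) ∈ σ ρ) := by
    intro c ρ i j hij
    have h1 := (mem_filter.1 (hA2 c)).2
    rw [← h1]
    simp only [hf, mem_filter]
    constructor
    · intro h2
      exact ⟨mem_filter.2 ⟨mem_univ _, hij⟩, h2⟩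
    · intro h2
      exact h2.2
  have hclq : ∀ t : Finset (Fin m), t.card = mR R + 1 → ∃ i ∈ t, ∃ j ∈ t, i < j ∧ ∀ ρ, (i, j) ∈ σ ρ := by
    apply nested
    intro ρ t htr
    obtain ⟨S, hS, hSc, c, hc⟩ := h4 ρ t htr (fun i k => A i (Fin.castSucc k))
      (fun i a b hab => Fin.castSucc_injective _ (hA1 i hab)) (fun i k => hmem i _)
    refine ⟨S, hS, hSc, fun i hi j hj hij => ?_⟩
    exact (hpat (fun i => Fin.castSucc (c i)) ρ i j hij).1 (hc i hi j hj hij)
  -- the transversal number zero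
  set x : Fin m → α := fun i => A i 0 with hx
  have hxB := hA2 (fun _ => 0)
  have hxbad := (mem_filter.1 (mem_filter.1 hxB).1).2
  have h5 := turan_r (m := m) (r := mR R + 1) (by have := mR_pos R; omega)
    (fun i j => AllR Rel i j (x i) (x j)) (by
      intro t ht
      obtain ⟨i, hi, j, hj, hij, h6⟩ := hclq t ht
      exact ⟨i, hi, j, hj, hij, fun ρ => (hpat (fun _ => 0) ρ i j hij).2 (h6 ρ)⟩)
  have h6 : ((mR R + 1 : ℕ) : ℝ) - 1 = (mR R : ℝ) := by push_cast; ring
  rw [h6] at h5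
  exact absurd hxbad (not_lt.2 h5)

open Classical in
/-- the densities of the common relation between the pairs of classes -/
theorem densN (R m K : ℕ) : ∃ N : ℕ, 1 ≤ N ∧ ∀ (α : Type)
    (Rel : Fin R → Fin m → Fin m → α → α → Prop) (V : Fin m → Finset α), (∀ i, N ≤ (V i).card) →
    Cliques K Rel V →
    ((m : ℝ) ^ 2 / (mR R : ℝ) - m) / 2 - 1 ≤ ∑ p ∈ prs m,
      ((∑ a ∈ V p.1, ∑ b ∈ V p.2, (if AllR Rel p.1 p.2 a b then (1 : ℝ) else 0)) /
        (((V p.1).card : ℝ) * ((V p.2).card : ℝ))) := by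
  set c : ℝ := ((m : ℝ) ^ 2 / (mR R : ℝ) - m) / 2 with hc
  obtain ⟨N, hN⟩ := rareN R m K (δ := 1 / (|c| + 1)) (by positivity)
  refine ⟨max 1 N, le_max_left _ _, fun α Rel V hV h4 => ?_⟩
  have hrr := hN α Rel V (fun i => (le_max_right _ _).trans (hV i)) h4
  have hV0 : ∀ i, (0 : ℝ) < (V i).card := fun i => by
    exact_mod_cast (lt_of_lt_of_le one_pos ((le_max_left _ _).trans (hV i)))
  have hP : (0 : ℝ) < ∏ i, ((V i).card : ℝ) := Finset.prod_pos (fun i _ => hV0 i)
  set P := ∏ i, ((V i).card : ℝ) with hPdef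
  have h1 : P * ∑ p ∈ prs m,
      ((∑ a ∈ V p.1, ∑ b ∈ V p.2, (if AllR Rel p.1 p.2 a b then (1 : ℝ) else 0)) /
        (((V p.1).card : ℝ) * ((V p.2).card : ℝ))) =
      ∑ x ∈ Fintype.piFinset V,
        (((prs m).filter (fun p => AllR Rel p.1 p.2 (x p.1) (x p.2))).card : ℝ) := by
    have e1 : ∀ x ∈ Fintype.piFinset V,
        (((prs m).filter (fun p => AllR Rel p.1 p.2 (x p.1) (x p.2))).card : ℝ) =
        ∑ p ∈ prs m, (if AllR Rel p.1 p.2 (x p.1) (x p.2) then (1 : ℝ) else 0) := by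
      intro x _
      rw [Finset.card_filter]
      push_cast
      rfl
    rw [Finset.sum_congr rfl e1, Finset.sum_comm, Finset.mul_sum]
    apply Finset.sum_congr rfl
    intro p hp
    have hlt : p.1 < p.2 := (mem_filter.1 hp).2
    have e2 := sum_pi_pair V hlt.ne (fun a b => if AllR Rel p.1 p.2 a b then (1 : ℝ) else 0)
    have h0 : ((V p.1).card : ℝ) * ((V p.2).card : ℝ) ≠ 0 := (mul_pos (hV0 _) (hV0 _)).ne'
    rw [mul_div_assoc', div_eq_iff h0]
    rw [mul_comm (∑ x ∈ Fintype.piFinset V, _)]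
    exact e2.symm
  have h2 : (c - 1) * P ≤
      ∑ x ∈ Fintype.piFinset V,
        (((prs m).filter (fun p => AllR Rel p.1 p.2 (x p.1) (x p.2))).card : ℝ) := by
    rcases le_or_gt c 0 with hc0 | hc0
    · have h3 : (0 : ℝ) ≤ ∑ x ∈ Fintype.piFinset V,
        (((prs m).filter (fun p => AllR Rel p.1 p.2 (x p.1) (x p.2))).card : ℝ) :=
        Finset.sum_nonneg (fun _ _ => Nat.cast_nonneg _)
      nlinarith
    have h3 : ∑ x ∈ (Fintype.piFinset V).filter (fun x =>
        ¬ (((prs m).filter (fun p => AllR Rel p.1 p.2 (x p.1) (x p.2))).card : ℝ) < c), c ≤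
        ∑ x ∈ Fintype.piFinset V,
          (((prs m).filter (fun p => AllR Rel p.1 p.2 (x p.1) (x p.2))).card : ℝ) := by
      refine (Finset.sum_le_sum (fun x hx => ?_)).trans
        (Finset.sum_le_sum_of_subset_of_nonneg (filter_subset _ _) (fun _ _ _ => Nat.cast_nonneg _))
      exact not_lt.1 (mem_filter.1 hx).2
    rw [Finset.sum_const, nsmul_eq_mul] at h3
    have h4' := Finset.card_filter_add_card_filter_not (s := Fintype.piFinset V) (fun x =>
        (((prs m).filter (fun p => AllR Rel p.1 p.2 (x p.1) (x p.2))).card : ℝ) < c)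
    rw [Fintype.card_piFinset] at h4'
    have h5 : ((((Fintype.piFinset V).filter (fun x =>
        (((prs m).filter (fun p => AllR Rel p.1 p.2 (x p.1) (x p.2))).card : ℝ) < c)).card : ℕ) : ℝ) +
        ((((Fintype.piFinset V).filter (fun x =>
        ¬ (((prs m).filter (fun p => AllR Rel p.1 p.2 (x p.1) (x p.2))).card : ℝ) < c)).card : ℕ) : ℝ) = P := by
      rw [hPdef]
      exact_mod_cast h4'
    have h6 : (1 / (|c| + 1)) * c ≤ 1 := by
      rw [div_mul_eq_mul_div, div_le_iff₀ (by positivity)]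
      have := le_abs_self c
      linarith
    have h7 : (P - 1 / (|c| + 1) * P) * c ≤
        ((((Fintype.piFinset V).filter (fun x =>
        ¬ (((prs m).filter (fun p => AllR Rel p.1 p.2 (x p.1) (x p.2))).card : ℝ) < c)).card : ℕ) : ℝ) * c := by
      apply mul_le_mul_of_nonneg_right _ hc0.le
      linarith
    have h8 : (c - 1) * P ≤ (P - 1 / (|c| + 1) * P) * c := by
      have : (1 / (|c| + 1)) * c * P ≤ 1 * P := mul_le_mul_of_nonneg_right h6 hP.le
      nlinarith
    linarith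
  have h9 : (c - 1) * P ≤ P * ∑ p ∈ prs m,
      ((∑ a ∈ V p.1, ∑ b ∈ V p.2, (if AllR Rel p.1 p.2 a b then (1 : ℝ) else 0)) /
        (((V p.1).card : ℝ) * ((V p.2).card : ℝ))) := by rw [h1]; exact h2
  rw [mul_comm P] at h9
  exact le_of_mul_le_mul_right h9 hP

end Pool.Agent.R493.SI
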