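import Mathlib
import Pool.Agent.R493.SI.Nest
/-!
# The share of the common good numbers in every long window
-/

namespace Pool.Agent.R493.SI

open Finset Filter
open Pool.Agent.R493.OT (prs card_prs)

/-- the numbers in `C ρ` are differences of the members of large cliques, for all `ρ`, in all separated
systems of classes -/
def DiffCliques {R : ℕ} (K : ℕ) (C : Fin R → ℕ → Prop) : Prop :=
  ∀ (m : ℕ) (ρ : Fin R) (t : Finset (Fin m)), t.card ≤ mR R + 1 → ∀ A : Fin m → Fin K → ℕ,
      (∀ i, Function.Injective (A i)) →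
      (∀ i j, i < j → ∀ k k', A i k < A j k') →
      ∃ S ⊆ t, 5 * t.card ≤ 18 * S.card ∧ ∃ c : Fin m → Fin K,
        ∀ i ∈ S, ∀ j ∈ S, i < j → C ρ (A j (c j) - A i (c i))

open Classical in
theorem winN (R K : ℕ) (C : Fin R → ℕ → Prop) (h4 : DiffCliques K C)
    (ε : ℝ) (hε : 0 < ε) : ∃ L : ℕ, ∀ T : ℕ, L ≤ T → ∀ u : ℕ,
      (1 / (mR R : ℝ) - ε) * T ≤
        (((Ioc u (u + T)).filter (fun k => ∀ ρ, C ρ k)).card : ℝ) := by
  by_contra hcon
  push Not at hcon
  choose T hT u hbad using hcon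
  have hr1 : (1 : ℝ) ≤ (mR R : ℝ) := by exact_mod_cast mR_pos R
  have hr1' : 1 / (mR R : ℝ) ≤ 1 := by
    rw [div_le_one (by linarith)]
    exact hr1
  obtain ⟨m, hm⟩ := exists_nat_gt (4 / ε + 4)
  have hm4 : (4 : ℝ) < m := by
    have : 0 < 4 / ε := by positivity
    linarith
  obtain ⟨N, hN1, hN⟩ := densN R m K
  set η : ℝ := min (ε / 4) (1 / 2) with hη
  have hη0 : 0 < η := lt_min (by positivity) (by norm_num)
  have hηε : η ≤ ε / 4 := min_le_left _ _
  have hη2 : η ≤ 1 / 2 := min_le_right _ _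
  obtain ⟨f, hf1, hf2⟩ := exists_seq_of_forall_finset_exists
    (fun n : ℕ => 2 * N + 2 ≤ n)
    (fun n n' : ℕ => ((u n : ℝ) + T n) ≤ η * T n') (by
      intro S _
      have e1 : ∀ᶠ n' : ℕ in atTop, ∀ n ∈ S, ((u n : ℝ) + T n) ≤ η * T n' := by
        rw [Filter.eventually_all_finset]
        intro n _
        have t1 : Tendsto (fun n' : ℕ => η * (n' : ℝ)) atTop atTop :=
          Tendsto.const_mul_atTop hη0 tendsto_natCast_atTop_atTop
        filter_upwards [t1.eventually_ge_atTop ((u n : ℝ) + T n)] with n' h1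
        refine h1.trans (mul_le_mul_of_nonneg_left ?_ hη0.le)
        exact_mod_cast hT n'
      obtain ⟨n, h1, h2⟩ := ((eventually_ge_atTop (2 * N + 2)).and e1).exists
      exact ⟨n, h1, h2⟩)
  have hTN : ∀ n, 2 * N + 2 ≤ T (f n) := fun n => (hf1 n).trans (hT _)
  have hTr : ∀ n, (0 : ℝ) < T (f n) := fun n => by
    have := hTN n
    exact_mod_cast (by omega : 0 < T (f n))
  set e : ℕ → ℕ := fun n => ⌊η * T (f n)⌋₊ with he
  have he1 : ∀ n, (e n : ℝ) ≤ η * T (f n) := fun n =>
    Nat.floor_le (mul_nonneg hη0.le (hTr n).le)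
  have he2 : ∀ n (a : ℕ), (a : ℝ) ≤ η * T (f n) → a ≤ e n := fun n a ha => Nat.le_floor ha
  have he3 : ∀ n, 2 * e n ≤ T (f n) := fun n => by
    have h1 : (2 * e n : ℝ) ≤ T (f n) := by
      have := he1 n
      have := hTr n
      nlinarith
    exact_mod_cast h1
  set W : ℕ → Finset ℕ := fun n => Ioc (u (f n) + e n) (u (f n) + T (f n)) with hW
  have hWc : ∀ n, (W n).card = T (f n) - e n := fun n => by
    simp only [hW, Nat.card_Ioc]
    omega
  have hWc' : ∀ n, ((W n).card : ℝ) = T (f n) - e n := fun n => by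
    rw [hWc, Nat.cast_sub (by have := he3 n; omega)]
  have hmain := hN ℕ (fun ρ _ _ a b => C ρ (b - a)) (fun i : Fin m => W i)
    (fun i => by
      show N ≤ (W i).card
      rw [hWc]
      have := hTN i
      have := he3 i
      omega) (by
      intro ρ t ht A hA hmem
      apply h4 m ρ t ht A hA
      intro i j hij k k'
      have h1 := hmem i k
      have h2 := hmem j k'
      simp only [hW, mem_Ioc] at h1 h2
      have h3 := hf2 _ _ (show (i : ℕ) < j from hij)
      have h5 : u (f i) + T (f i) ≤ e j := he2 j _ (by push_cast; exact h3)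
      omega)
  -- one pair
  have hpair : ∀ p ∈ prs m,
      ((∑ a ∈ W p.1, ∑ b ∈ W p.2,
        (if AllR (fun (ρ : Fin R) (_ _ : Fin m) (a b : ℕ) => C ρ (b - a)) p.1 p.2 a b
          then (1 : ℝ) else 0)) /
        (((W p.1).card : ℝ) * ((W p.2).card : ℝ))) ≤ 1 / (mR R : ℝ) - ε / 2 := by
    intro p hp
    have hlt : (p.1 : ℕ) < p.2 := (mem_filter.1 hp).2
    have hrel := hf2 _ _ hlt
    have hpos : ∀ n, (0 : ℝ) < (W n).card := fun n => by
      have := hTN n
      have := he3 n
      rw [hWc]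
      exact_mod_cast (by omega : 0 < T (f n) - e n)
    have h0 : (0 : ℝ) < ((W p.1).card : ℝ) * ((W p.2).card : ℝ) := mul_pos (hpos _) (hpos _)
    rw [div_le_iff₀ h0]
    set Gd := (Ioc (u (f p.2)) (u (f p.2) + T (f p.2))).filter (fun k => ∀ ρ, C ρ k) with hGd
    have h9 : (Gd.card : ℝ) < (1 / (mR R : ℝ) - ε) * T (f p.2) := hbad (f p.2)
    have hpos2 : 0 < 1 / (mR R : ℝ) - ε := by
      by_contra hneg
      push Not at hneg
      have h10 := mul_nonpos_of_nonpos_of_nonneg hneg (hTr p.2).le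
      have h11 : (0 : ℝ) ≤ Gd.card := Nat.cast_nonneg _
      linarith
    have hrow : ∀ a ∈ W p.1, ∑ b ∈ W p.2,
        (if AllR (fun (ρ : Fin R) (_ _ : Fin m) (a b : ℕ) => C ρ (b - a)) p.1 p.2 a b
          then (1 : ℝ) else 0) ≤ (1 / (mR R : ℝ) - ε / 2) * ((W p.2).card : ℝ) := by
      intro a ha
      simp only [hW, mem_Ioc] at ha
      have e1 : ∑ b ∈ W p.2,
        (if AllR (fun (ρ : Fin R) (_ _ : Fin m) (a b : ℕ) => C ρ (b - a)) p.1 p.2 a b
          then (1 : ℝ) else 0) = (((W p.2).filter (fun b =>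
          AllR (fun (ρ : Fin R) (_ _ : Fin m) (a b : ℕ) => C ρ (b - a)) p.1 p.2 a b)).card : ℝ) := by
        rw [Finset.card_filter]
        push_cast
        rfl
      rw [e1]
      have hae : a ≤ e p.2 := he2 _ _ (by
        refine le_trans ?_ hrel
        exact_mod_cast ha.2)
      have h5 : (W p.2).filter (fun b =>
          AllR (fun (ρ : Fin R) (_ _ : Fin m) (a b : ℕ) => C ρ (b - a)) p.1 p.2 a b) ⊆
          Gd.image (fun k => k + a) := by
        intro b hb
        obtain ⟨h6, h7⟩ := mem_filter.1 hb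
        simp only [hW, mem_Ioc] at h6
        refine mem_image.2 ⟨b - a, mem_filter.2 ⟨?_, fun ρ => h7 ρ⟩, by omega⟩
        rw [mem_Ioc]
        omega
      have h6 := (card_le_card h5).trans card_image_le
      have h8 : (((W p.2).filter (fun b =>
          AllR (fun (ρ : Fin R) (_ _ : Fin m) (a b : ℕ) => C ρ (b - a)) p.1 p.2 a b)).card : ℝ) ≤
          Gd.card := by exact_mod_cast h6
      refine h8.trans (h9.le.trans ?_)
      rw [hWc']
      have h12 := he1 p.2
      have h13 := hTr p.2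
      have h14 : (1 - η) * (T (f p.2) : ℝ) ≤ T (f p.2) - e p.2 := by linarith
      have h15 : 0 < 1 / (mR R : ℝ) - ε / 2 := by linarith
      refine le_trans ?_ (mul_le_mul_of_nonneg_left h14 h15.le)
      rw [← mul_assoc]
      apply mul_le_mul_of_nonneg_right _ h13.le
      nlinarith
    refine (Finset.sum_le_sum hrow).trans ?_
    rw [Finset.sum_const, nsmul_eq_mul]
    apply le_of_eq
    ring
  have hsum := Finset.sum_le_sum hpair
  rw [Finset.sum_const, nsmul_eq_mul, card_prs] at hsum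
  have h11 := hmain.trans hsum
  have h13 : 4 / ε * ε = 4 := by field_simp
  have h14 : (4 / ε + 4) * ε < m * ε := mul_lt_mul_of_pos_right hm hε
  have h15 : 0 < 1 / (mR R : ℝ) := by positivity
  have h16 : (m : ℝ) ^ 2 / (mR R : ℝ) = m ^ 2 * (1 / (mR R : ℝ)) := by ring
  rw [h16] at h11
  set x : ℝ := 1 / (mR R : ℝ)
  nlinarith

end Pool.Agent.R493.SI
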