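import Mathlib
import Pool.Agent.R493.OT.Pairs
import Pool.Agent.R493.SI.WinN
import Pool.Agent.W25.IT.Basic
/-!
# Classes of linear forms and the common good exponents of several maps
-/

namespace Pool.Agent.R493.SI

open Finset Filter
open Pool.Agent.Y827.GS (cntN cntN_anti Adf adf_ev)
open Pool.Agent.R493.OT (Many good_of_cnt)
open Pool.Agent.W25.IT (itc itc_zero itc_inj itc_coprime itc_add itc_sub iter_admissible iter_miss)

open Classical in
/-- any `T ≤ r` classes of `K` linear forms have `5 T / 18` members of different classes which are often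
prime together -/
theorem classes (r : ℕ) : ∃ K C : ℕ, 1 ≤ K ∧ ∀ T : ℕ, 1 ≤ T → T ≤ r → ∀ H : Fin T → Fin K → ℤ × ℤ,
    Function.Injective (fun x : Fin T × Fin K => H x.1 x.2) →
    (∀ g i, 0 < (H g i).1 ∧ IsCoprime (H g i).1 (H g i).2) →
    (∀ p : ℕ, p.Prime → p ≤ r * K → ∃ r : ℤ, ∀ g i, ¬ (p : ℤ) ∣ (H g i).1 * r + (H g i).2) →
    ∃ (S : Finset (Fin T)) (c : Fin T → Fin K), 5 * T ≤ 18 * S.card ∧
      ∃ᶠ N : ℕ in atTop, (N : ℝ) / (Real.log N) ^ C ≤ (cntN (S.image (fun g => H g (c g))) N : ℝ) := by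
  choose Kf hKf1 hKf using Pool.Agent.Y827.RO.lamRD
  set K : ℕ := ∑ T ∈ range (r + 1), Kf T with hK
  set C : ℕ := ∑ T ∈ range (r + 1), (T * Kf T + 2) with hC
  have hle : ∀ T ≤ r, Kf T ≤ K := fun T hT =>
    Finset.single_le_sum (f := Kf) (fun _ _ => Nat.zero_le _) (mem_range.2 (by omega))
  have hle2 : ∀ T ≤ r, T * Kf T + 2 ≤ C := fun T hT =>
    Finset.single_le_sum (f := fun T => T * Kf T + 2) (fun _ _ => Nat.zero_le _)
      (mem_range.2 (by omega))
  refine ⟨K, C, (hKf1 0).trans (hle 0 (Nat.zero_le _)), fun T hT hTr H hinj hpos hloc => ?_⟩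
  set H' : Fin T → Fin (Kf T) → ℤ × ℤ := fun g i => H g (Fin.castLE (hle T hTr) i) with hH'
  have hinj' : Function.Injective (fun x : Fin T × Fin (Kf T) => H' x.1 x.2) := by
    intro x y hxy
    have h1 := hinj (a₁ := (x.1, Fin.castLE (hle T hTr) x.2)) (a₂ := (y.1, Fin.castLE (hle T hTr) y.2)) hxy
    rw [Prod.mk.injEq] at h1
    exact Prod.ext h1.1 (Fin.castLE_injective _ h1.2)
  obtain ⟨A, hA⟩ := adf_ev (univ.image (fun x : Fin T × Fin (Kf T) => H' x.1 x.2)) (by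
    intro f hf
    obtain ⟨x, _, rfl⟩ := mem_image.1 hf
    exact hpos _ _)
  have h1 := hKf T hT A
  have hlog : ∀ᶠ N : ℕ in atTop, (1 : ℝ) ≤ Real.log N :=
    (Real.tendsto_log_atTop.comp tendsto_natCast_atTop_atTop).eventually_ge_atTop _
  have h2 : ∀ᶠ N : ℕ in atTop, ∃ (P : Finset (Fin T) × (Fin T → Fin (Kf T))),
      (T : ℝ) ≤ (18 / 5) * (P.1.card : ℝ) ∧
      (N : ℝ) / (Real.log N) ^ C ≤ (cntN (P.1.image (fun g => H' g (P.2 g))) N : ℝ) := by
    filter_upwards [h1, hA, hlog] with N hN hA hl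
    obtain ⟨S, c, h3, h4⟩ := hN H' hinj' (fun g i => hA _ (mem_image.2 ⟨(g, i), mem_univ _, rfl⟩))
      (fun p hp hle' => by
        obtain ⟨r', hr'⟩ := hloc p hp (hle'.trans (Nat.mul_le_mul hTr (hle T hTr)))
        exact ⟨r', fun g i => hr' _ _⟩)
    refine ⟨(S, c), h3, le_trans ?_ h4⟩
    exact div_le_div_of_nonneg_left (Nat.cast_nonneg _) (by positivity)
      (pow_le_pow_right₀ hl (hle2 T hTr))
  have h3 : ∃ (P : Finset (Fin T) × (Fin T → Fin (Kf T))), ∃ᶠ N : ℕ in atTop,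
      (T : ℝ) ≤ (18 / 5) * (P.1.card : ℝ) ∧
      (N : ℝ) / (Real.log N) ^ C ≤ (cntN (P.1.image (fun g => H' g (P.2 g))) N : ℝ) := by
    by_contra hcon
    push Not at hcon
    have h4 : ∀ᶠ N : ℕ in atTop, ∀ P : Finset (Fin T) × (Fin T → Fin (Kf T)), ¬
      ((T : ℝ) ≤ (18 / 5) * (P.1.card : ℝ) ∧
      (N : ℝ) / (Real.log N) ^ C ≤ (cntN (P.1.image (fun g => H' g (P.2 g))) N : ℝ)) := by
      rw [Filter.eventually_all]
      intro P
      filter_upwards [hcon P] with N hN h5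
      exact absurd (hN h5.1) (not_lt.2 h5.2)
    obtain ⟨N, ⟨P, hP⟩, hN⟩ := (h2.and h4).exists
    exact hN P hP
  obtain ⟨⟨S, c⟩, hS⟩ := h3
  refine ⟨S, fun g => Fin.castLE (hle T hTr) (c g), ?_, hS.mono (fun N hN => hN.2)⟩
  obtain ⟨N, hN, _⟩ := hS.exists
  have h5 : (5 * T : ℝ) ≤ 18 * S.card := by
    simp only at hN
    linarith
  exact_mod_cast h5

/-- The pair `(a, D)` satisfies the hypotheses and the conclusion of the question; moreover, for
arbitrarily large `x` there are at least `x / (log x) ^ B` primes `q ≤ x` with `a + q D` prime. -/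
def Good (B : ℕ) (a D : ℤ) : Prop :=
  Int.gcd a D = 1 ∧ 2 ∣ a * D ∧
  {q : ℕ | q.Prime ∧ ∃ p : ℕ, p.Prime ∧ a + q * D = p}.Infinite ∧
  ∃ᶠ x : ℕ in atTop, (x : ℝ) / (Real.log x) ^ B ≤
    ({q : ℕ | q ≤ x ∧ q.Prime ∧ ∃ p : ℕ, p.Prime ∧ a + q * D = p}.ncard : ℝ)

open Classical in
/-- the common good exponents of several maps: their share in every long window of multiples of `N` -/
theorem commonN (R : ℕ) : ∃ B M₀ : ℕ, 0 < M₀ ∧
    ∀ a d : Fin R → ℤ, (∀ ρ, 1 ≤ d ρ ∧ Int.gcd (a ρ) (d ρ) = 1 ∧ 2 ∣ a ρ * d ρ ∧ a ρ ≠ 0) →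
    ∀ N : ℕ, 0 < N → M₀ ∣ N → ∀ ε : ℝ, 0 < ε → ∃ L : ℕ, ∀ T : ℕ, L ≤ T → ∀ u : ℕ,
      (1 / (mR R : ℝ) - ε) * T ≤
        (((Ioc u (u + T)).filter (fun k => ∀ ρ : Fin R,
          Good B (itc (a ρ) (d ρ) (N * k)) (d ρ ^ (N * k)))).card : ℝ) := by
  obtain ⟨K, C, hK, h⟩ := classes (mR R + 1)
  refine ⟨C + 1, ((mR R + 1) * K).factorial, Nat.factorial_pos _, fun a d had N hN0 hN ε hε => ?_⟩
  have hprime : ∀ p : ℕ, p.Prime → p ≤ (mR R + 1) * K → p ∣ N := fun p hp hle =>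
    ((Nat.Prime.dvd_factorial hp).2 hle).trans hN
  apply winN R K
    (fun ρ k => Good (C + 1) (itc (a ρ) (d ρ) (N * k)) (d ρ ^ (N * k))) ?_ ε hε
  intro m ρ t ht A hA hlt
  obtain ⟨hd, hg, h2, ha⟩ := had ρ
  set a' := a ρ
  set d' := d ρ
  rcases Nat.eq_zero_or_pos t.card with h0 | h0
  · refine ⟨∅, empty_subset _, by omega, fun _ => ⟨0, hK⟩, ?_⟩
    intro i hi
    exact absurd hi (notMem_empty _)
  set e := t.orderEmbOfFin rfl with he
  have hemem : ∀ g, e g ∈ t := fun g => t.orderEmbOfFin_mem rfl g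
  have hcop : ∀ j, Int.gcd (itc a' d' j) (d' ^ j) = 1 := by
    intro j
    by_contra hne1
    obtain ⟨r, hr, hrd⟩ := Nat.exists_prime_and_dvd hne1
    have h1 : (r : ℤ) ∣ (Int.gcd (itc a' d' j) (d' ^ j) : ℤ) :=
      Int.natCast_dvd_natCast.2 hrd
    exact itc_coprime hg hr (h1.trans (Int.gcd_dvd_right _ _)) (h1.trans (Int.gcd_dvd_left _ _))
  obtain ⟨S, c, hS, hfr⟩ := h t.card h0 ht
    (fun g i => (d' ^ (N * A (e g) i), itc a' d' (N * A (e g) i)))
    (by
      intro x y hxy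
      simp only [Prod.mk.injEq] at hxy
      have h1 := itc_inj hd ha hxy.1 hxy.2
      have h3 : A (e x.1) x.2 = A (e y.1) y.2 := Nat.eq_of_mul_eq_mul_left hN0 h1
      rcases lt_trichotomy x.1 y.1 with h4 | h4 | h4
      · exact absurd h3 (hlt _ _ (e.strictMono h4) _ _).ne
      · rw [h4] at h3
        exact Prod.ext h4 (hA _ h3)
      · exact absurd h3 (hlt _ _ (e.strictMono h4) _ _).ne')
    (fun g i => ⟨by positivity, by
      show IsCoprime (d' ^ (N * A (e g) i)) (itc a' d' (N * A (e g) i))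
      rw [isCoprime_comm, Int.isCoprime_iff_gcd_eq_one]
      exact hcop _⟩)
    (by
      intro p hp hle
      obtain ⟨n, hn⟩ := iter_admissible (ι := Fin t.card × Fin K) hg h2
        (fun x => N * A (e x.1) x.2) hp (by
        intro hp3 hp1 hpa
        apply iter_miss _ hp hp1 hpa 1
        intro x hcon
        have h3 : N * A (e x.1) x.2 ≡ 0 [MOD p] :=
          (Nat.modEq_zero_iff_dvd).2 ((hprime p hp hle).mul_right _)
        have h4 := (Nat.modEq_zero_iff_dvd).1 (hcon.symm.trans h3)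
        exact hp.one_lt.ne' (Nat.dvd_one.1 h4))
      exact ⟨n, fun g i => hn (g, i)⟩)
  refine ⟨S.map e.toEmbedding, ?_, ?_, Function.extend e c (fun _ => ⟨0, hK⟩), ?_⟩
  · intro i hi
    obtain ⟨g, _, rfl⟩ := Finset.mem_map.1 hi
    exact hemem g
  · rw [card_map]
    exact hS
  · intro i hi j hj hij
    obtain ⟨g, hgS, rfl⟩ := Finset.mem_map.1 hi
    obtain ⟨g', hgS', rfl⟩ := Finset.mem_map.1 hj
    have e1 : (e.toEmbedding : Fin t.card → Fin m) = e := rfl
    simp only [e1] at hij ⊢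
    rw [e.injective.extend_apply, e.injective.extend_apply]
    have hlt' := hlt _ _ hij (c g) (c g')
    have hle : N * A (e g) (c g) ≤ N * A (e g') (c g') := Nat.mul_le_mul_left _ hlt'.le
    have h3 := good_of_cnt (s := d' ^ (N * A (e g) (c g))) (s' := d' ^ (N * A (e g') (c g')))
      (Q := d' ^ (N * A (e g') (c g') - N * A (e g) (c g))) (by positivity)
      (by rw [← pow_add, Nat.add_sub_cancel' hle]) (mem_image.2 ⟨g, hgS, rfl⟩)
      (mem_image.2 ⟨g', hgS', rfl⟩) hfr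
    rw [itc_sub a' d' hle] at h3
    have h4 : N * (A (e g') (c g') - A (e g) (c g)) =
        N * A (e g') (c g') - N * A (e g) (c g) := Nat.mul_sub _ _ _
    rw [← h4] at h3
    refine ⟨hcop _, ?_, h3.1, h3.2⟩
    have hj : N * (A (e g') (c g') - A (e g) (c g)) ≠ 0 := by
      have : 0 < A (e g') (c g') - A (e g) (c g) := by omega
      positivity
    rcases Int.prime_two.dvd_or_dvd h2 with h5 | h5
    · exact (h5.mul_right _).mul_right _
    · exact (h5.trans (dvd_pow_self d' hj)).mul_left _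

end Pool.Agent.R493.SI
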